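import Pool.Agent.Lib.MP_f9c34c_al.Main

namespace Pool.Agent.Results.MP_f9c34c_al.GenusTwo

open Pool.Agent.Lib.MP_f9c34c_al

/-- Genus two. Let `p` be the surface Lie algebra, the free Lie algebra on `a 0, a 1, b 0, b 1`
modulo the ideal of the symplectic class. Let `u` be any Lie algebra given by generators `ι` and
relations `R` without component of bracket length eight, and let `Φ` map `u` to the outer
derivations of `p` so that the images of the generators span the derivations of degree two. Then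
`Φ` kills a nonzero element of bracket length eight. -/
theorem result (p : Type) [LieRing p] [LieAlgebra ℚ p]
    (π : FreeLieAlgebra ℚ (Fin 2 × Bool) →ₗ⁅ℚ⁆ p) (hs : Function.Surjective π)
    (hk : π.ker = LieSubmodule.lieSpan ℚ (FreeLieAlgebra ℚ (Fin 2 × Bool)) {omega0 2})
    (ι : Type) (R : Set (FreeLieAlgebra ℚ ι))
    (hR : ∀ r ∈ R, r ∈ ⨆ k ≠ 7, len (FreeLieAlgebra.of ℚ) k)
    (Φ : (FreeLieAlgebra ℚ ι ⧸ LieSubmodule.lieSpan ℚ (FreeLieAlgebra ℚ ι) R) →ₗ⁅ℚ⁆
      LieDerivation ℚ p p ⧸ (LieDerivation.ad ℚ p).idealRange)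
    (hΦ : (Submodule.span ℚ (Set.range fun i =>
      Φ (LieSubmodule.Quotient.mk (FreeLieAlgebra.of ℚ i))) : Set _) =
      hdeg (fun x => π (FreeLieAlgebra.of ℚ x)) 2) :
    ∃ z ∈ len (FreeLieAlgebra.of ℚ) 7,
      (LieSubmodule.Quotient.mk z :
        FreeLieAlgebra ℚ ι ⧸ LieSubmodule.lieSpan ℚ (FreeLieAlgebra ℚ ι) R) ≠ 0 ∧
      Φ (LieSubmodule.Quotient.mk z) = 0 := by
  obtain ⟨z, h1, h2, h3⟩ := main ⟨hs, fun z => by rw [← LieHom.mem_ker, hk]⟩ _ hΦ R hR Φ
    fun _ => rfl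
  exact ⟨z, h1, fun h => h2 (LieSubmodule.Quotient.mk_eq_zero'.1 h), h3⟩

end Pool.Agent.Results.MP_f9c34c_al.GenusTwo
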