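import Pool.Agent.Lib.MP_f9c34c_al.G.Final
import Pool.Agent.Lib.MP_f9c34c_al.G.Bridge

namespace Pool.Agent.Results.MP_f9c34c_al.Kernel

open Pool.Agent.Lib.MP_f9c34c_al.St

/-- Genus two. `OG (J 1)` is the coordinate ring of the completion of the mapping class group
relative to the symplectic representation, `Lcs (J 1) n` is the span of the brackets of length
`n + 1` in the Lie algebra of its prounipotent radical, and `J 17` is the coordinate ring of the
Zariski closure of the image in the outer automorphism group of the Malcev completion of class
seventeen of the surface group. An element of bracket length eight, not zero modulo brackets of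
length nine, acts trivially on `J 17`: its class in the associated graded Lie algebra, of weight
sixteen, is a nonzero element whose image in the outer symplectic derivations of degree sixteen
vanishes. -/
theorem result : (∀ f, J 17 f → OG (J 1) f) ∧
    ∃ ξ, Lcs (J 1) 7 ξ ∧
      (∃ f, OG (J 1) f ∧ (∀ η, Lcs (J 1) 8 η → ∀ x, η f x = 0) ∧ ∃ x, ξ f x ≠ 0) ∧
      ∀ f, J 17 f → ∀ x, ξ f x = 0 := by
  rw [j_eq, j_eq]
  exact transfer _ _ 7 Pool.Agent.Lib.MP_f9c34c_al.G.main

end Pool.Agent.Results.MP_f9c34c_al.Kernel
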